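import Mathlib
import Pool.Agent.X48.LightsOut

/-!
The conjectured formula for the largest number of edges of an always winnable graph fails, with
an unbounded gap: for arbitrarily large `k (n, l)` at most `n / 2 + 5` edges need to be missing.
-/

namespace Pool.Agent.Results.MP_7a9eeb_co.UnboundedGap

open Pool.Agent.X48.LightsOut

theorem result : ∀ K : ℕ, ∃ n l : ℕ, 2 ≤ n ∧ Even n ∧ 2 ≤ l ∧ Even l ∧ K ≤ kk n l ∧
    n.choose 2 ≤ maxEdges n l + (n / 2 + 5) := by
  intro K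
  set l := (2 * K + 14).factorial with hl
  have hdvd : ∀ m, 0 < m → m ≤ 2 * K + 14 → m ∣ l := fun m h1 h2 => Nat.dvd_factorial h1 h2
  have hl14 : 14 ≤ l := le_trans (by omega) (Nat.self_le_factorial (2 * K + 14))
  obtain ⟨c, hc⟩ := hdvd 2 (by norm_num) (by omega)
  have hn : 12 + 2 * (c - 7) = l - 2 := by omega
  have hne : NeZero l := ⟨by omega⟩
  refine ⟨12 + 2 * (c - 7), l, by omega, ⟨6 + (c - 7), by ring⟩, by omega, ⟨c, by omega⟩, ?_, ?_⟩
  · unfold kk
    apply le_csInf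
    · refine ⟨6 + (c - 7) - 1, ?_⟩
      change Int.gcd _ _ = 1
      have : (((12 + 2 * (c - 7) : ℕ) : ℤ) - 2 * ((6 + (c - 7) - 1 : ℕ) : ℤ) - 1) = 1 := by omega
      rw [this]
      simp
    · intro k hk
      by_contra hlt
      push Not at hlt
      change Int.gcd _ _ = 1 at hk
      have h1 : (((12 + 2 * (c - 7) : ℕ) : ℤ) - 2 * (k : ℤ) - 1) = (l : ℤ) - ((2 * k + 3 : ℕ) : ℤ) := by
        omega
      rw [h1] at hk
      have h2 : ((2 * k + 3 : ℕ) : ℤ) ∣ (l : ℤ) := by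
        exact_mod_cast hdvd (2 * k + 3) (by omega) (by omega)
      have h3 : ((2 * k + 3 : ℕ) : ℤ) ∣ (l : ℤ) - ((2 * k + 3 : ℕ) : ℤ) := dvd_sub h2 dvd_rfl
      have h4 := Int.dvd_coe_gcd h3 h2
      rw [hk] at h4
      have h5 : (2 * k + 3) ∣ 1 := by exact_mod_cast h4
      have h6 := Nat.dvd_one.1 h5
      omega
  · apply main_aux
    have h1 : 2 * (c - 7) + 13 = l - 1 := by omega
    rw [h1]
    have h2 : Nat.Coprime (l - 1) (l - 1 + 1) := by simp
    have h3 : l - 1 + 1 = l := by omega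
    rw [h3] at h2
    exact h2

end Pool.Agent.Results.MP_7a9eeb_co.UnboundedGap
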